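import Pool.Agent.Helper92.TG.GoalsX
import Pool.Agent.Helper90.T3.SUBF
import Pool.Agent.Helper12.SGB.All

/-!
# Project TG (MP_a41896_nt), CM version, part EXR: CONT

If `Q` is close to `0` then `P + Q` is close to `P`.
-/

set_option autoImplicit false

namespace Pool.Agent.Helper13.TG.CONT

open WeierstrassCurve
open Pool.Agent.Helper29.BL Pool.Agent.Helper42.SG
open Pool.Agent.Helper60.T3 (WL IP)

noncomputable section

/-! ## Valuations -/

section val

variable {Ω : Type} [Field Ω] (V : ValuationSubring Ω)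

theorem mul_lt {a b : Ω} (ha : V.valuation a < 1) (hb : b ∈ V) : V.valuation (a * b) < 1 := by
  rw [map_mul]
  exact lt_of_le_of_lt (mul_le_of_le_one_right' ((V.valuation_le_one_iff b).mpr hb)) ha

theorem sq_lt {a : Ω} (h : V.valuation (a ^ 2) < 1) : V.valuation a < 1 := by
  by_contra h1
  have h2 : 1 ≤ V.valuation a := not_lt.mp h1
  rw [map_pow] at h
  exact absurd h (not_lt.mpr (one_le_pow₀ h2))

/-- the quadratic equation -/
theorem key {X w T b2 b4 b6 b8 : Ω} (hX : X ∈ V) (hw : V.valuation w < 1) (h2 : b2 ∈ V)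
    (h4 : b4 ∈ V) (h6 : b6 ∈ V) (h8 : b8 ∈ V)
    (h : (T - X) ^ 2 + w * (T ^ 2 * X ^ 2 * w - 2 * (X * T * (X + T)) - b2 * (X * T) -
      b4 * (X + T + T * X * w) - b6 * (X * w + 1 + T * w) - b8 * w) = 0) :
    T ∈ V ∧ V.valuation (T - X) < 1 := by
  have hwV : w ∈ V := (V.valuation_le_one_iff w).mp hw.le
  have h22 : (2 : Ω) ∈ V := by
    have := V.add_mem _ _ V.one_mem V.one_mem
    rwa [one_add_one_eq_two] at this
  have hT : T ∈ V := by
    by_contra hT
    have hT1 : 1 < V.valuation T := by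
      rw [← not_le]
      exact fun h => hT ((V.valuation_le_one_iff T).mp h)
    have hT0 : T ≠ 0 := fun e => hT (e ▸ V.zero_mem)
    have hu : V.valuation T⁻¹ < 1 := by
      rw [map_inv₀]
      exact inv_lt_one_of_one_lt₀ hT1
    have huV : T⁻¹ ∈ V := (V.valuation_le_one_iff _).mp hu.le
    -- `1 = ...`
    have e : (1 : Ω) = w * (2 * X - X ^ 2 * w) +
        T⁻¹ * ((2 * X + 2 * X ^ 2 * w + b2 * (X * w) + b4 * (w + X * w ^ 2) + b6 * w ^ 2) -
          T⁻¹ * (X ^ 2 - b4 * (X * w) - b6 * (X * w ^ 2 + w) - b8 * w ^ 2)) := by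
      field_simp
      linear_combination h
    have m1 : V.valuation (w * (2 * X - X ^ 2 * w)) < 1 := by
      refine mul_lt V hw ?_
      exact sub_mem (V.mul_mem _ _ h22 hX) (V.mul_mem _ _ (V.pow_mem hX 2) hwV)
    have m2 : V.valuation (T⁻¹ * ((2 * X + 2 * X ^ 2 * w + b2 * (X * w) + b4 * (w + X * w ^ 2) +
        b6 * w ^ 2) - T⁻¹ * (X ^ 2 - b4 * (X * w) - b6 * (X * w ^ 2 + w) - b8 * w ^ 2))) < 1 := by
      refine mul_lt V hu ?_
      have hs : ∀ a ∈ V.toSubring, a ∈ V := fun a h => h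
      apply hs
      have X' : X ∈ V.toSubring := hX
      have w' : w ∈ V.toSubring := hwV
      have b2' : b2 ∈ V.toSubring := h2
      have b4' : b4 ∈ V.toSubring := h4
      have b6' : b6 ∈ V.toSubring := h6
      have b8' : b8 ∈ V.toSubring := h8
      have u' : T⁻¹ ∈ V.toSubring := huV
      have t' : (2 : Ω) ∈ V.toSubring := h22
      aesop (add safe apply [add_mem, sub_mem, mul_mem, pow_mem])
    have : V.valuation (1 : Ω) < 1 := by
      rw [e]
      exact Valuation.map_add_lt _ m1 m2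
    rw [map_one] at this
    exact lt_irrefl _ this
  refine ⟨hT, ?_⟩
  apply sq_lt V
  have e : (T - X) ^ 2 = w * (-(T ^ 2 * X ^ 2 * w - 2 * (X * T * (X + T)) - b2 * (X * T) -
      b4 * (X + T + T * X * w) - b6 * (X * w + 1 + T * w) - b8 * w)) := by
    linear_combination h
  rw [e]
  refine mul_lt V hw ?_
  have hs : ∀ a ∈ V.toSubring, a ∈ V := fun a h => h
  apply hs
  have X' : X ∈ V.toSubring := hX
  have T' : T ∈ V.toSubring := hT
  have w' : w ∈ V.toSubring := hwV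
  have b2' : b2 ∈ V.toSubring := h2
  have b4' : b4 ∈ V.toSubring := h4
  have b6' : b6 ∈ V.toSubring := h6
  have b8' : b8 ∈ V.toSubring := h8
  have t' : (2 : Ω) ∈ V.toSubring := h22
  have o' : (1 : Ω) ∈ V.toSubring := V.one_mem
  aesop (add safe apply [add_mem, sub_mem, mul_mem, pow_mem, neg_mem])

end val

/-! ## Points -/

section pts

variable {F : Type} [Field F] [DecidableEq F] {W : Affine F}

omit [DecidableEq F] in
theorem xc_neg' (P : W.Point) : xc (-P) = xc P := by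
  rcases P with _ | ⟨x, y, h⟩
  · rfl
  · rfl

theorem ps_zero_of (P : W.Point) (h : P + P = 0) : ps P = 0 := by
  have h1 : P = -P := eq_neg_of_add_eq_zero_left h
  rcases P with _ | ⟨x, y, hn⟩
  · rfl
  · rw [Affine.Point.neg_some, Affine.Point.some.injEq] at h1
    show 2 * y + W.a₁ * x + W.a₃ = 0
    have h2 := h1.2
    unfold Affine.negY at h2
    linear_combination h2

theorem add_zero_of (P : W.Point) (h : ps P = 0) : P + P = 0 := by
  rcases P with _ | ⟨x, y, hn⟩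
  · rfl
  · have h' : 2 * y + W.a₁ * x + W.a₃ = 0 := h
    refine Affine.Point.add_of_Y_eq rfl ?_
    unfold Affine.negY
    linear_combination h'

/-- the laws of `ELAW` for `e = 0` -/
theorem laws [W.IsElliptic] (P Q : W.Point) (h2 : (2 : F) ≠ 0) (hP : P ≠ 0) (hQ : Q ≠ 0)
    (hPQ : P + Q ≠ 0) :
    Th W (xc Q) (xc P) 1 - ps P * ps Q = xc (P + Q) * (2 * (xc P - xc Q) ^ 2) ∧
    2 * Sh W (xc Q) (xc P) 1 = xc (P + Q) * (Th W (xc Q) (xc P) 1 + ps P * ps Q) := by
  have key := Pool.Agent.Helper12.SGB.th_ELAW F W P Q 0 h2 hP hQ (by simpa using hPQ)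
  obtain ⟨-, -, -, h3, h4⟩ := key
  rw [pow_zero, one_smul] at h3 h4
  simp only [law, Ph, Rr, Uh, if_true, if_false, Bool.false_eq_true, mul_one] at h3 h4
  exact ⟨h3, h4⟩

end pts

theorem t : Pool.Agent.Helper92.TG.CONT := by
  intro K Ω _ _ _ _ _ W _ V k hk P Q hP hPk hQ
  have hc0 : CharZero Ω := charZero_of_injective_algebraMap (algebraMap K Ω).injective
  have h2 : (2 : Ω) ≠ 0 := two_ne_zero
  have hE : (WL Ω W).IsElliptic := inferInstance
  have hKV : ∀ z : K, algebraMap K Ω z ∈ V := fun z => hk _ (k.algebraMap_mem z)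
  have b2 : (WL Ω W).b₂ ∈ V := by rw [WeierstrassCurve.map_b₂]; exact hKV _
  have b4 : (WL Ω W).b₄ ∈ V := by rw [WeierstrassCurve.map_b₄]; exact hKV _
  have b6 : (WL Ω W).b₆ ∈ V := by rw [WeierstrassCurve.map_b₆]; exact hKV _
  have b8 : (WL Ω W).b₈ ∈ V := by rw [WeierstrassCurve.map_b₈]; exact hKV _
  have hQ0 : Q ≠ 0 := by
    rintro rfl
    exact hQ (by rw [xc_zero]; exact V.zero_mem)
  set s := xc Q with hs
  have hs0 : s ≠ 0 := fun e => hQ (e ▸ V.zero_mem)
  have hw : V.valuation s⁻¹ < 1 := by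
    rw [map_inv₀]
    apply inv_lt_one_of_one_lt₀
    rw [← not_le]
    exact fun h => hQ ((V.valuation_le_one_iff s).mp h)
  -- step 1 for all points with coordinates in `k`
  have step : ∀ R : (WL Ω W).Point, R ≠ 0 → IP (k : Set Ω) R →
      R + Q ≠ 0 ∧ xc R ∈ V ∧ xc (R + Q) ∈ V ∧ V.valuation (xc (R + Q) - xc R) < 1 := by
    intro R hR hRk
    have hX : xc R ∈ V := by
      rcases hRk with h | h
      · exact absurd h hR
      · exact hk _ h.1
    have hRQ : R + Q ≠ 0 := by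
      intro h
      have e : Q = -R := eq_neg_of_add_eq_zero_right h
      apply hQ
      rw [hs, e, xc_neg']
      exact hX
    obtain ⟨h3, h4⟩ := laws R Q h2 hR hQ0 hRQ
    have hk := key V (X := xc R) (w := s⁻¹) (T := xc (R + Q)) hX hw b2 b4 b6 b8 (by
      rw [← hs] at h3 h4
      have h5 : (2 : Ω) * (xc (R + Q) ^ 2 * (xc R - s) ^ 2 - xc (R + Q) * Th (WL Ω W) s (xc R) 1 +
          Sh (WL Ω W) s (xc R) 1) = 0 := by
        linear_combination (xc (R + Q)) * h3 * (-1) + h4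
      have h6 := (mul_eq_zero.mp h5).resolve_left h2
      simp only [Th, Sh] at h6
      field_simp
      linear_combination h6)
    exact ⟨hRQ, hX, hk.1, hk.2⟩
  obtain ⟨hPQ, hX, hT, hTX⟩ := step P hP hPk
  refine ⟨hPQ, hTX, ?_⟩
  have hps : ps P ∈ k := by
    rcases hPk with h | h
    · exact absurd h hP
    · exact h.2
  have hB : ps P ^ 2 = Bf (WL Ω W) (xc P) := Pool.Agent.Helper24.SGB.ps_sq P hP
  have hB1 : ps (P + Q) ^ 2 = Bf (WL Ω W) (xc (P + Q)) := Pool.Agent.Helper24.SGB.ps_sq _ hPQ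
  have h22 : (2 : Ω) ∈ V := by
    have := V.add_mem _ _ V.one_mem V.one_mem
    rwa [one_add_one_eq_two] at this
  by_cases hPP : P + P = 0
  · have e0 := ps_zero_of P hPP
    rw [e0, sub_zero]
    apply sq_lt V
    rw [hB1]
    have e : Bf (WL Ω W) (xc (P + Q)) = (xc (P + Q) - xc P) *
        (4 * (xc (P + Q) ^ 2 + xc (P + Q) * xc P + xc P ^ 2) +
          (WL Ω W).b₂ * (xc (P + Q) + xc P) + 2 * (WL Ω W).b₄) := by
      rw [e0] at hB
      simp only [Bf] at hB ⊢
      linear_combination -hB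
    rw [e]
    refine mul_lt V hTX ?_
    have h44 : (4 : Ω) ∈ V := by
      have := V.add_mem _ _ h22 h22
      have e4 : (2 : Ω) + 2 = 4 := by norm_num
      rwa [e4] at this
    exact V.add_mem _ _ (V.add_mem _ _ (V.mul_mem _ _ h44 (V.add_mem _ _ (V.add_mem _ _
      (pow_mem hT 2) (V.mul_mem _ _ hT hX)) (pow_mem hX 2)))
      (V.mul_mem _ _ b2 (V.add_mem _ _ hT hX))) (V.mul_mem _ _ h22 b4)
  · obtain ⟨-, -, hT2, -⟩ := step (P + P) hPP
      (Pool.Agent.Helper90.T3.SUBF.t K Ω W k P P hPk hPk).1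
    have e3 : (P + Q) + P = (P + P) + Q := by abel
    have h3 : (P + Q) + P ≠ 0 := by
      rw [e3]
      exact (step (P + P) hPP (Pool.Agent.Helper90.T3.SUBF.t K Ω W k P P hPk hPk).1).1
    obtain ⟨h4, -⟩ := laws (P + Q) P h2 hPQ hP h3
    have hp0 : ps P ≠ 0 := fun e => hPP (add_zero_of P e)
    have hpi : (ps P)⁻¹ ∈ V := hk _ (k.inv_mem hps)
    have hp2 : ps P * (ps P)⁻¹ = 1 := mul_inv_cancel₀ hp0
    rw [e3] at h4
    have e : ps (P + Q) - ps P = (xc (P + Q) - xc P) * ((ps P)⁻¹ *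
        (2 * xc P * (xc (P + Q) + 2 * xc P) + (WL Ω W).b₂ * xc P + (WL Ω W).b₄ -
          xc (P + P + Q) * 2 * (xc (P + Q) - xc P))) := by
      simp only [Th, Bf] at h4 hB
      linear_combination (ps (P + Q) - ps P) * (-1 : Ω) * hp2 - (ps P)⁻¹ * (h4 + hB)
    rw [e]
    refine mul_lt V hTX (V.mul_mem _ _ hpi ?_)
    exact sub_mem (V.add_mem _ _ (V.add_mem _ _ (V.mul_mem _ _ (V.mul_mem _ _ h22 hX)
      (V.add_mem _ _ hT (V.mul_mem _ _ h22 hX))) (V.mul_mem _ _ b2 hX)) b4)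
      (V.mul_mem _ _ (V.mul_mem _ _ hT2 h22) (sub_mem hT hX))

end

end Pool.Agent.Helper13.TG.CONT
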